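import Pool.Agent.Y673.SL.Bs
import Pool.Agent.Y673.SY.Bx

/-!
# MP_cda23d_nt: few exceptions to uniformity, for all primes in a long range at once, with explicit
exponents

For every `ε > 0` there are `C` and `c > 0` such that for every `N ≥ 5`

* for `X ≥ 1` at most `C X ^ (5 / N + ε)` rational numbers `j` with numerator and denominator at most
  `X` (of about `X ^ 2`) are the invariant of an elliptic curve `E` over `ℚ` for which, for some prime
  `p` with `N ≤ p ≤ exp (c √(log X))`, the image of `Gal(ℚ̄/ℚ)` in `Aut(E[p])` does not contain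
  `SL₂(𝔽_p)`;
* for `T ≥ 1` at most `C T ^ (1 + 30 / N + ε)` pairs of nonzero integers `A`, `B` with `|A| ≤ T²`,
  `|B| ≤ T³`, `4A³ + 27B² ≠ 0` (of about `T ^ 5`) have this property for `y² = x³ + Ax + B` and some
  prime `p` with `N ≤ p ≤ exp (c √(log T))`.

(Since the determinant is the cyclotomic character, the image contains `SL₂(𝔽_p)` if and only if the
representation is surjective.  By a theorem of Masser and Wüstholz it is surjective, for `E` without
complex multiplication, for `p` larger than a constant times a power of `log X`.  These facts are not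
used here.)

Proof.  The curves `y² = x³ - 3t(t - 1728)x - 2t(t - 1728)²` have invariant `t`.  Let `G` be the Galois
group of the `x`-coordinates of the points of order `p` over `ℚ(t)`.  Its order is divisible by `p`, as
it is for `t = 1 / 5` (a place of multiplicative reduction), and it fixes no line of `E[p]` (real points
at `t = 3456`).  If a specialisation at `t = j` has an image which does not contain `SL₂(𝔽_p)`, then its
order is prime to `p` or it fixes a line, so that the decomposition group `D` has index at least `p` in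
`G`.  Then a resolvent of `D` has degree at least `p` in `Y`, is irreducible over `ℚ(t)`, and has a
simple rational root at `t = j`.  For each of at most `exp (C (log p)²)` irreducible resolvents
`F(t, Y)` of degree at least `p` and at most `p⁴` the `j` with a simple rational root are counted by
auxiliary polynomials, uniformly in `F` and `p`: it is enough to have a prime `q` slightly larger than
`X ^ (4 (1 + o(1)) / p)` which does not divide a discriminant, so one of `(p log X) ^ C` fixed primes,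
and the curve has at most `q p ^ C` points modulo `q`.  The second part follows from the first, as the invariants of the curves have
height at most `6912 T ^ 6` and at most `4 T` pairs have the same invariant.
-/

set_option autoImplicit false

open WeierstrassCurve

namespace Pool.Agent.Results.MP_cda23d_nt.ExplicitWithoutSL

/-- The curve `y² = x³ + Ax + B` over `ℚ`. -/
def curve (A B : ℚ) : WeierstrassCurve ℚ := ⟨0, 0, 0, A, B⟩

/-- Its `j`-invariant. -/
def invariant (A B : ℚ) : ℚ := 1728 * (4 * A ^ 3) / (4 * A ^ 3 + 27 * B ^ 2)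

open scoped Classical in
/-- The group of its points over the algebraic closure of `ℚ`. -/
abbrev Points (A B : ℚ) : Type := ((curve A B).baseChange (AlgebraicClosure ℚ)).toAffine.Point

open scoped Classical in
/-- The action of an automorphism `σ` of the algebraic closure on the points. -/
noncomputable def galois (A B : ℚ) (σ : AlgebraicClosure ℚ ≃ₐ[ℚ] AlgebraicClosure ℚ) :
    Points A B →+ Points A B :=
  WeierstrassCurve.Affine.Point.map (σ : AlgebraicClosure ℚ →ₐ[ℚ] AlgebraicClosure ℚ)

open scoped Classical in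
/-- The points `P` and `Q` form a basis of the `p`-torsion. -/
def IsBasis (A B : ℚ) (p : ℕ) (P Q : Points A B) : Prop :=
  p • P = 0 ∧ p • Q = 0 ∧
    (∀ R : Points A B, p • R = 0 → ∃ m n : ℤ, R = m • P + n • Q) ∧
    ∀ m n : ℤ, m • P + n • Q = 0 → (p : ℤ) ∣ m ∧ (p : ℤ) ∣ n

open scoped Classical in
/-- The image of the Galois group in the automorphism group of the `p`-torsion contains all
automorphisms of determinant `1`: there is a basis of the `p`-torsion in which every matrix of
determinant `1` modulo `p` is the matrix of some `σ`. -/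
def ContainsSL (A B : ℚ) (p : ℕ) : Prop :=
  ∃ P Q : Points A B, IsBasis A B p P Q ∧
    ∀ a b c d : ℤ, (p : ℤ) ∣ a * d - b * c - 1 →
      ∃ σ : AlgebraicClosure ℚ ≃ₐ[ℚ] AlgebraicClosure ℚ,
        galois A B σ P = a • P + c • Q ∧ galois A B σ Q = b • P + d • Q

/-- The rational numbers with numerator and denominator at most `X` which are the invariant of an
elliptic curve such that for some prime `p` with `N ≤ p ≤ exp (c √(log X))` the image does not contain
all automorphisms of determinant `1`. -/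
def ExceptionalInvariants (N : ℕ) (c X : ℝ) : Set ℚ :=
  {j | |(j.num : ℝ)| ≤ X ∧ (j.den : ℝ) ≤ X ∧
    ∃ A B : ℚ, 4 * A ^ 3 + 27 * B ^ 2 ≠ 0 ∧ invariant A B = j ∧
      ∃ p : ℕ, p.Prime ∧ N ≤ p ∧ (p : ℝ) ≤ Real.exp (c * Real.sqrt (Real.log X)) ∧
        ¬ ContainsSL A B p}

/-- The pairs of nonzero integers `A`, `B` with `|A| ≤ T²`, `|B| ≤ T³`, `4A³ + 27B² ≠ 0` such that for
some prime `p` with `N ≤ p ≤ exp (c √(log T))` the image does not contain all automorphisms of
determinant `1`. -/
def ExceptionalCurves (N : ℕ) (c T : ℝ) : Set (ℤ × ℤ) :=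
  {x | |(x.1 : ℝ)| ≤ T ^ 2 ∧ |(x.2 : ℝ)| ≤ T ^ 3 ∧ x.1 ≠ 0 ∧ x.2 ≠ 0 ∧
    4 * x.1 ^ 3 + 27 * x.2 ^ 2 ≠ 0 ∧
    ∃ p : ℕ, p.Prime ∧ N ≤ p ∧ (p : ℝ) ≤ Real.exp (c * Real.sqrt (Real.log T)) ∧
      ¬ ContainsSL (x.1 : ℚ) (x.2 : ℚ) p}

/-- **Few exceptions, with explicit exponents.**  For every `ε > 0` there are `C` and `c > 0` such that
for every `N ≥ 5` there are for `X ≥ 1` at most `C X ^ (5 / N + ε)` exceptional invariants of height
at most `X`, and for `T ≥ 1` at most `C T ^ (1 + 30 / N + ε)` exceptional pairs. -/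
theorem result (ε : ℝ) (hε : 0 < ε) :
    ∃ C c : ℝ, 0 < c ∧ ∀ N : ℕ, 5 ≤ N →
      (∀ X : ℝ, 1 ≤ X → (ExceptionalInvariants N c X).Finite ∧
        ((ExceptionalInvariants N c X).ncard : ℝ) ≤ C * X ^ (5 / (N : ℝ) + ε)) ∧
      (∀ T : ℝ, 1 ≤ T → (ExceptionalCurves N c T).Finite ∧
        ((ExceptionalCurves N c T).ncard : ℝ) ≤ C * T ^ (1 + 30 / (N : ℝ) + ε)) := by
  obtain ⟨C₁, c₁, hc₁, h₁⟩ := Pool.Agent.Y673.SY.few_Q2 hε
  obtain ⟨C₂, c₂, hc₂, h₂⟩ := Pool.Agent.Y673.SY.few_boxQ2 hε
  have hcont : ∀ {A B : ℚ} {p : ℕ}, p.Prime → 4 * A ^ 3 + 27 * B ^ 2 ≠ 0 →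
      ¬ ContainsSL A B p → ¬ Pool.Agent.Y673.SL.HasSL A B p := by
    rintro A B p hp hD hno ⟨P, Q, h1, h2, h3, h4, h5⟩
    obtain ⟨h6, h7⟩ := Pool.Agent.Y673.SL.basis hD hp h1 h2 h3 h4
    exact hno ⟨P, Q, ⟨h1, h2, h6, h7⟩, h5⟩
  refine ⟨max C₁ C₂, min c₁ c₂, lt_min hc₁ hc₂, fun N hN5 => ⟨fun X hX => ?_, fun T hT => ?_⟩⟩
  · obtain ⟨hf, hn⟩ := h₁ N hN5 X hX
    have hsub : ExceptionalInvariants N (min c₁ c₂) X ⊆ Pool.Agent.Y673.SX.ExQ N c₁ X := by
      rintro j ⟨a1, a2, A, B, hD, hj, p, hp, hNp, hpX, hno⟩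
      refine ⟨a1, a2, A, B, hD, ?_, p, hp, hNp, hpX.trans ?_, hcont hp hD hno⟩
      · rw [← hj]
        unfold Pool.Agent.Y673.Loc.jv invariant
        ring
      · apply Real.exp_le_exp.2
        exact mul_le_mul_of_nonneg_right (min_le_left _ _) (Real.sqrt_nonneg _)
    refine ⟨hf.subset hsub, ?_⟩
    calc ((ExceptionalInvariants N (min c₁ c₂) X).ncard : ℝ) ≤
        ((Pool.Agent.Y673.SX.ExQ N c₁ X).ncard : ℝ) := by
          exact_mod_cast Set.ncard_le_ncard hsub hf
      _ ≤ C₁ * X ^ (5 / (N : ℝ) + ε) := hn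
      _ ≤ max C₁ C₂ * X ^ (5 / (N : ℝ) + ε) := by
          apply mul_le_mul_of_nonneg_right (le_max_left _ _)
          exact Real.rpow_nonneg (by linarith) _
  · obtain ⟨hf, hn⟩ := h₂ N hN5 T hT
    have hsub : ExceptionalCurves N (min c₁ c₂) T ⊆ Pool.Agent.Y673.SX.BxQ N c₂ T := by
      rintro x ⟨a1, a2, a3, a4, a5, p, hp, hNp, hpX, hno⟩
      refine ⟨a1, a2, a3, a4, a5, p, hp, hNp, hpX.trans ?_, hcont hp ?_ hno⟩
      · apply Real.exp_le_exp.2
        exact mul_le_mul_of_nonneg_right (min_le_right _ _) (Real.sqrt_nonneg _)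
      · exact_mod_cast a5
    refine ⟨hf.subset hsub, ?_⟩
    calc ((ExceptionalCurves N (min c₁ c₂) T).ncard : ℝ) ≤
        ((Pool.Agent.Y673.SX.BxQ N c₂ T).ncard : ℝ) := by
          exact_mod_cast Set.ncard_le_ncard hsub hf
      _ ≤ C₂ * T ^ (1 + 30 / (N : ℝ) + ε) := hn
      _ ≤ max C₁ C₂ * T ^ (1 + 30 / (N : ℝ) + ε) := by
          apply mul_le_mul_of_nonneg_right (le_max_right _ _)
          exact Real.rpow_nonneg (by linarith) _

end Pool.Agent.Results.MP_cda23d_nt.ExplicitWithoutSL
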