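import Pool.Agent.TH894.NJ5

/-!
# Serre's uniformity question in one-parameter families at integers with few changed digits

Let `E_t : y² = x³ + A(t)x + B(t)` be a one-parameter family over `ℚ` with an `I₁` fibre (`4A³ + 27B²` has an irreducible factor
of multiplicity one).  Take any integer `N` with `K` digits in base `b`, prescribe for every position a new digit, choose `r`
positions and put the new digits there, which gives the number `t`.  For all but a proportion `ε` of the choices the curve `E_t` is an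
elliptic curve without complex multiplication (its `j`-invariant is not an integer) and for **all** primes `l ≥ 3` and all number
fields `L` of degree less than `l` the image of the Galois group of `L` in the automorphism group of `E_t[l]` contains an element of
order `l`, and it contains `SL₂(𝔽_l)` unless `E_t` has an isogeny of degree `l` over `L`.  In particular the image is not contained in
the normaliser of a nonsplit Cartan group.
-/

set_option autoImplicit false

namespace Pool.Agent.Results.MP_cda23d_nt.FewDigitFamilies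

open Finset Polynomial
open scoped Classical

/-- The curve `y² = x³ + Ax + B` over `ℚ`. -/
def curve (A B : ℤ) : WeierstrassCurve ℚ := ⟨0, 0, 0, A, B⟩

/-- The group of its points over the algebraic closure of `ℚ`. -/
abbrev Points (A B : ℤ) : Type := ((curve A B).baseChange (AlgebraicClosure ℚ)).toAffine.Point

/-- The action of an automorphism `σ` of the algebraic closure on the points. -/
noncomputable def galois (A B : ℤ) (σ : AlgebraicClosure ℚ ≃ₐ[ℚ] AlgebraicClosure ℚ) :
    Points A B →+ Points A B :=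
  WeierstrassCurve.Affine.Point.map
    (σ : AlgebraicClosure ℚ →ₐ[ℚ] AlgebraicClosure ℚ)

/-- `P` and `Q` form a basis of the `l`-torsion over `ℤ / lℤ`. -/
def IsBasis (A B : ℤ) (l : ℕ) (P Q : Points A B) : Prop :=
  l • P = 0 ∧ l • Q = 0 ∧ (∀ m n : ℤ, m • P + n • Q = 0 → (l : ℤ) ∣ m ∧ (l : ℤ) ∣ n) ∧
    ∀ R : Points A B, l • R = 0 → ∃ m n : ℤ, R = m • P + n • Q

/-- Some element of the subgroup `G` of the Galois group acts on the `l`-torsion as a transvection: not trivially, but
`(σ - 1) ^ 2 = 0`.  (So it acts with order `l`.) -/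
def HasTransvection (G : Subgroup (AlgebraicClosure ℚ ≃ₐ[ℚ] AlgebraicClosure ℚ)) (A B : ℤ) (l : ℕ) : Prop :=
  ∃ σ ∈ G, (∃ P : Points A B, l • P = 0 ∧ galois A B σ P ≠ P) ∧
    ∀ P : Points A B, l • P = 0 → galois A B σ (galois A B σ P - P) = galois A B σ P - P

/-- Some line of the `l`-torsion is invariant under `G` (the curve has an isogeny of degree `l` over the fixed field of `G`). -/
def HasLine (G : Subgroup (AlgebraicClosure ℚ ≃ₐ[ℚ] AlgebraicClosure ℚ)) (A B : ℤ) (l : ℕ) : Prop :=
  ∃ P : Points A B, l • P = 0 ∧ P ≠ 0 ∧ ∀ σ ∈ G, ∃ j : ℤ, galois A B σ P = j • P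

/-- The image of `G` in the automorphism group of the `l`-torsion contains all automorphisms of determinant one: with
respect to every basis all matrices of determinant one are attained. -/
def ContainsSL (G : Subgroup (AlgebraicClosure ℚ ≃ₐ[ℚ] AlgebraicClosure ℚ)) (A B : ℤ) (l : ℕ) : Prop :=
  (∃ P Q : Points A B, IsBasis A B l P Q) ∧
  ∀ P Q : Points A B, IsBasis A B l P Q → ∀ α β γ δ : ℤ, (l : ℤ) ∣ α * δ - β * γ - 1 →
    ∃ σ ∈ G, galois A B σ P = α • P + γ • Q ∧ galois A B σ Q = β • P + δ • Q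

/-- `y² = x³ + Ax + B` is an elliptic curve, its `j`-invariant is not an integer, and for all primes `l ≥ 3` and all number fields
`L` of degree less than `l` the image of the Galois group of `L` in the automorphism group of the `l`-torsion contains a
transvection, and all automorphisms of determinant one unless a line is invariant. -/
def LargeImages (A B : ℤ) : Prop :=
  4 * A ^ 3 + 27 * B ^ 2 ≠ 0 ∧ (∀ k : ℤ, 6912 * A ^ 3 ≠ k * (4 * A ^ 3 + 27 * B ^ 2)) ∧
    ∀ l : ℕ, l.Prime → 3 ≤ l → ∀ L : IntermediateField ℚ (AlgebraicClosure ℚ), FiniteDimensional ℚ L →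
      Module.finrank ℚ L < l → HasTransvection L.fixingSubgroup A B l ∧
        (HasLine L.fixingSubgroup A B l ∨ ContainsSL L.fixingSubgroup A B l)

/-- The digit number `i` (counted from the right, beginning with `0`) of `n` in base `b`. -/
def digit (b i n : ℕ) : ℕ := n / b ^ i % b

/-- The number which arises from the number `N` with at most `K` digits in base `b`, if for every `i ∈ S`
the digit number `i` is replaced by `f i`. -/
def change (b K N : ℕ) (f : ℕ → ℕ) (S : Finset ℕ) : ℕ :=
  ∑ i ∈ range K, (if i ∈ S then f i else digit b i N) * b ^ i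

/-- bases of the torsion -/
lemma basis_exists {A B : ℤ} (hD : 4 * A ^ 3 + 27 * B ^ 2 ≠ 0) {l : ℕ} (hl : l.Prime) :
    ∃ P Q : Points A B, l • P = 0 ∧ l • Q = 0 ∧ ∀ m n : ℤ, m • P + n • Q = 0 → (l : ℤ) ∣ m ∧ (l : ℤ) ∣ n := by
  obtain ⟨hfin, _⟩ := Pool.Agent.TH894.NJ.tors_card A B hD l hl.one_lt.le
  have hlow := Pool.Agent.TH894.NJ.tors_lower A B hD l hl.one_lt.le
  have hl1 := hl.one_lt
  -- multiples of one point
  have key : ∀ P : Points A B, l • P = 0 → ∃ Q : Points A B, l • Q = 0 ∧ ∀ m : ℤ, Q ≠ m • P := by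
    intro P hP
    by_contra hcon
    push Not at hcon
    have hsub : {Q : Points A B | l • Q = 0} ⊆ (Set.range (fun i : Fin l => (i : ℕ) • P)) := by
      intro Q hQ
      obtain ⟨m, hm⟩ := hcon Q hQ
      have h0 : (0 : ℤ) < l := by exact_mod_cast hl.pos
      have hm0 := Int.emod_nonneg m h0.ne'
      have hm1 := Int.emod_lt_of_pos m h0
      refine ⟨⟨(m % l).toNat, by omega⟩, ?_⟩
      show (m % l).toNat • P = Q
      have h3 : ((m % l).toNat : ℤ) • P = Q := by
        rw [Int.toNat_of_nonneg hm0, hm]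
        apply Pool.Agent.TH894.NJ.zs l hP
        exact ⟨-(m / l), by rw [Int.emod_def]; ring⟩
      rw [← h3, natCast_zsmul]
    have h1 := Set.ncard_le_ncard hsub (Set.finite_range _)
    have h2 : (Set.range (fun i : Fin l => (i : ℕ) • P)).ncard ≤ l := by
      rw [← Set.image_univ]
      refine (Set.ncard_image_le Set.finite_univ).trans ?_
      rw [Set.ncard_univ, Nat.card_eq_fintype_card, Fintype.card_fin]
    have h3 : l ^ 2 ≤ l := hlow.trans (h1.trans h2)
    nlinarith
  obtain ⟨P, hP, hP0⟩ := key 0 (nsmul_zero l)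
  obtain ⟨Q, hQ, hQP⟩ := key P hP
  have hPne : P ≠ 0 := by
    intro h
    exact hP0 0 (by rw [h, zero_zsmul])
  have ord : ∀ m : ℤ, m • P = 0 → (l : ℤ) ∣ m := by
    intro m hm
    by_contra hdv
    obtain ⟨i, hi⟩ := Pool.Agent.TH894.NJ.inv_mod l hl hdv 1
    apply hPne
    have h1 : (1 : ℤ) • P = (i * m : ℤ) • P := by
      apply Pool.Agent.TH894.NJ.zs l hP
      obtain ⟨s, hs⟩ := hi
      exact ⟨-s, by linear_combination -hs⟩
    rw [one_zsmul, mul_zsmul, hm, zsmul_zero] at h1
    exact h1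
  refine ⟨P, Q, hP, hQ, fun m n h => ?_⟩
  have hn : (l : ℤ) ∣ n := by
    by_contra hdv
    obtain ⟨i, hi⟩ := Pool.Agent.TH894.NJ.inv_mod l hl hdv 1
    have h1 : (1 : ℤ) • Q = (i * n : ℤ) • Q := by
      apply Pool.Agent.TH894.NJ.zs l hQ
      obtain ⟨s, hs⟩ := hi
      exact ⟨-s, by linear_combination -hs⟩
    apply hQP (-(i * m))
    have h2 : (i : ℤ) • (m • P + n • Q) = 0 := by rw [h, zsmul_zero]
    rw [zsmul_add, ← mul_zsmul, ← mul_zsmul, ← h1, one_zsmul] at h2
    rw [neg_zsmul]
    exact eq_neg_of_add_eq_zero_right h2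
  refine ⟨?_, hn⟩
  apply ord
  obtain ⟨k, rfl⟩ := hn
  have h2 : ((l : ℤ) * k) • Q = 0 := by
    rw [mul_comm, mul_zsmul, natCast_zsmul, hQ, zsmul_zero]
  rwa [h2, add_zero] at h

lemma large_of_two {y : ℕ} {A B : ℤ} (h : Pool.Agent.TH894.NJ.Two y A B) : LargeImages A B := by
  obtain ⟨q₀, hq₀, _⟩ := h.choose 0
  have hD : 4 * A ^ 3 + 27 * B ^ 2 ≠ 0 := by
    intro h0
    apply hq₀.2.2.2
    show (q₀ : ℤ) ^ 2 ∣ 4 * A ^ 3 + 27 * B ^ 2
    rw [h0]
    exact dvd_zero _
  refine ⟨hD, fun k => Pool.Agent.TH894.NJ.j_not_int hq₀.1 hq₀.2.1 hq₀.2.2.1 hq₀.2.2.2 k, ?_⟩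
  intro l hl hl3 L hL hlL
  obtain ⟨q, hq, hql⟩ := h.choose l
  obtain ⟨h1, h2⟩ := Pool.Agent.TH894.NJ.image A B q l hq hl hl3 hql L.fixingSubgroup
    (fun σ => Pool.Agent.TH894.NJ.pigeon L l hlL σ)
  refine ⟨h1, ?_⟩
  rcases h2 with h2 | h2
  · exact Or.inl h2
  · right
    refine ⟨?_, fun P Q hPQ α β γ δ hdet => h2 P Q hPQ.1 hPQ.2.1 hPQ.2.2.1 α β γ δ hdet⟩
    obtain ⟨P, Q, hP, hQ, hI⟩ := basis_exists hD hl
    refine ⟨P, Q, hP, hQ, hI, ?_⟩
    obtain ⟨hfin, hcard⟩ := Pool.Agent.TH894.NJ.tors_card A B hD l hl.one_lt.le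
    exact fun R hR => Pool.Agent.TH894.NJ.span l hl hfin hcard hP hQ hI R hR

/-- **Serre's uniformity question in one-parameter families at integers with few changed digits.**  Let `A, B, P` be integer
polynomials, `P` irreducible of positive degree, dividing `4A³ + 27B²` exactly once.  For all bases `b ≥ 2` and all
`ε > 0` there is `C` such that for all `r ≥ C`, `K ≥ 2r`, all `N` with at most `K` digits in base `b`
and all new digits `f`: for all but a proportion `ε` of the choices of `r` of the `K` positions, if `t` is the number obtained by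
changing the digits of `N` at the chosen positions, then `y² = x³ + A(t)x + B(t)` has large images: for all primes `l ≥ 3` and all
number fields `L` of degree less than `l`. -/
theorem result (A B P : ℤ[X]) (hP : Irreducible P) (hd : 0 < P.natDegree) (hPD : P ∣ 4 * A ^ 3 + 27 * B ^ 2)
    (hP2 : ¬ P ^ 2 ∣ 4 * A ^ 3 + 27 * B ^ 2) (b : ℕ) (hb : 2 ≤ b) (ε : ℝ) (hε : 0 < ε) :
    ∃ C : ℕ, ∀ r K : ℕ, C ≤ r → 2 * r ≤ K →
      ∀ N : ℕ, N < b ^ K → ∀ f : ℕ → ℕ, (∀ j, f j < b ∧ f j ≠ digit b j N) →
        (((powersetCard r (range K)).filter (fun S =>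
          ¬ LargeImages (A.eval (change b K N f S : ℤ)) (B.eval (change b K N f S : ℤ)))).card : ℝ) ≤ ε * (K.choose r : ℝ) := by
  obtain ⟨c, hc, y₀, h⟩ := Pool.Agent.TH894.NJ.two_family b hb A B P hP hd hPD hP2 ε hε
  obtain ⟨C, hC⟩ := exists_nat_ge (Real.log y₀ / c)
  refine ⟨C, fun r K hr hrK N hN f hf => ?_⟩
  have hlog : Real.log y₀ ≤ c * r := by
    rw [div_le_iff₀ hc] at hC
    have : (C : ℝ) ≤ r := by exact_mod_cast hr
    nlinarith
  refine le_trans ?_ (h y₀ le_rfl r K hrK hlog N hN f hf)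
  apply Nat.cast_le.2
  apply card_le_card
  intro S hS
  rw [mem_filter] at hS ⊢
  exact ⟨hS.1, fun hR => hS.2 (large_of_two hR)⟩

end Pool.Agent.Results.MP_cda23d_nt.FewDigitFamilies
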