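import Pool.Agent.Y673.Kept.FEI
import Pool.Agent.Y854.GM.Win

/-!
# Uniformity for all elliptic curves with invariant of height in short windows

Let `v ≥ 1` be a sequence with exponent of convergence at most `τ` (for `v_n = n ^ a` this is `1 / a`, for `v_n = b ^ n`
or `n!` it is `0`) and `0 ≤ θ < 1`. For every `ε > 0` there are `N` and `c > 0` such that for all `α > 0` outside a set of
Hausdorff dimension at most `(ε + τ) / (1 - θ)` and all but finitely many `n`, for ALL rational numbers `j` of height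
`H(j)` with `|H(j) - α v_n| ≤ v_n ^ θ`, ALL elliptic curves `E` over `ℚ` with invariant `j` and ALL primes `p` with
`N ≤ p ≤ exp (c √(log H(j)))` the order of the image of `Gal(ℚ̄/ℚ)` in `Aut(E[p])` is divisible by `p`.
-/

set_option autoImplicit false

open WeierstrassCurve

namespace Pool.Agent.Results.MP_cda23d_nt.InvariantWindows

/-- the exponent of convergence of the sequence `v` is at most `τ` -/
def ExpLe (v : ℕ → ℝ) (τ : ℝ) : Prop := ∀ t : ℝ, τ < t → Summable (fun n : ℕ => (v n) ^ (-t))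

/-- The curve `y² = x³ + Ax + B` over `ℚ`. -/
def curve (A B : ℚ) : WeierstrassCurve ℚ := ⟨0, 0, 0, A, B⟩

/-- Its `j`-invariant. -/
def invariant (A B : ℚ) : ℚ := 1728 * (4 * A ^ 3) / (4 * A ^ 3 + 27 * B ^ 2)

open scoped Classical in
/-- The group of its points over the algebraic closure of `ℚ`. -/
abbrev Points (A B : ℚ) : Type := ((curve A B).baseChange (AlgebraicClosure ℚ)).toAffine.Point

open scoped Classical in
/-- The action of an automorphism `σ` of the algebraic closure on the points. -/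
noncomputable def galois (A B : ℚ) (σ : AlgebraicClosure ℚ ≃ₐ[ℚ] AlgebraicClosure ℚ) :
    Points A B →+ Points A B :=
  WeierstrassCurve.Affine.Point.map (σ : AlgebraicClosure ℚ →ₐ[ℚ] AlgebraicClosure ℚ)

open scoped Classical in
/-- Some `σ` acts on the `p`-torsion with order `p`: its `p`-th power acts trivially on the
`p`-torsion, and `σ` does not.  For a prime `p` this says that the order of the image of the Galois
group in the automorphism group of the `p`-torsion is divisible by `p`. -/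
def OrderDivisible (A B : ℚ) (p : ℕ) : Prop :=
  ∃ σ : AlgebraicClosure ℚ ≃ₐ[ℚ] AlgebraicClosure ℚ,
    (∀ P : Points A B, p • P = 0 → galois A B (σ ^ p) P = P) ∧
    ∃ P : Points A B, p • P = 0 ∧ galois A B σ P ≠ P

/-- the height of a rational number: the maximum of the absolute values of numerator and denominator -/
def ht (j : ℚ) : ℕ := max j.num.natAbs j.den

/-- the invariants of curves for which the order of the image is prime to `p` for some prime `p` with
`N ≤ p ≤ exp (c √(log H(j)))` -/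
def Exc (N : ℕ) (c : ℝ) : Set ℚ :=
  {j | ∃ A B : ℚ, 4 * A ^ 3 + 27 * B ^ 2 ≠ 0 ∧ invariant A B = j ∧
      ∃ p : ℕ, p.Prime ∧ N ≤ p ∧ (p : ℝ) ≤ Real.exp (c * Real.sqrt (Real.log (ht j : ℝ))) ∧ ¬ OrderDivisible A B p}

lemma count (ε : ℝ) (hε : 0 < ε) : ∃ (N : ℕ) (c : ℝ), 0 < c ∧ ∀ η : ℝ, 0 < η → ∃ C : ℝ, ∀ X : ℝ, 1 ≤ X →
    {j | j ∈ Exc N c ∧ (ht j : ℝ) ≤ X}.Finite ∧ ({j | j ∈ Exc N c ∧ (ht j : ℝ) ≤ X}.ncard : ℝ) ≤ C * X ^ (ε + η) := by
  obtain ⟨N, C, c, hc, h, -⟩ := Pool.Agent.Y673.Kept.FEI.result ε hε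
  refine ⟨N, c, hc, fun η hη => ⟨|C|, fun X hX => ?_⟩⟩
  obtain ⟨hfin, hcard⟩ := h X hX
  have hsub : {j | j ∈ Exc N c ∧ (ht j : ℝ) ≤ X} ⊆ Pool.Agent.Y673.Kept.FEI.ExceptionalInvariants N c X := by
    rintro j ⟨⟨A, B, h1, h2, p, h3, h4, h5, h6⟩, hj⟩
    have hn : (j.num.natAbs : ℝ) ≤ (ht j : ℝ) := by exact_mod_cast le_max_left j.num.natAbs j.den
    have hd : (j.den : ℝ) ≤ (ht j : ℝ) := by exact_mod_cast le_max_right j.num.natAbs j.den
    have hd1 : (1 : ℝ) ≤ (j.den : ℝ) := by exact_mod_cast j.den_pos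
    have ha : |(j.num : ℝ)| = (j.num.natAbs : ℝ) := by
      rw [← Int.cast_abs, Int.abs_eq_natAbs]
      simp
    refine ⟨?_, hd.trans hj, A, B, h1, h2, p, h3, h4, h5.trans ?_, h6⟩
    · rw [ha]
      exact hn.trans hj
    · apply Real.exp_le_exp.2
      apply mul_le_mul_of_nonneg_left _ hc.le
      apply Real.sqrt_le_sqrt
      exact Real.log_le_log (by linarith) hj
  refine ⟨hfin.subset hsub, ?_⟩
  calc ({j | j ∈ Exc N c ∧ (ht j : ℝ) ≤ X}.ncard : ℝ)
      ≤ ((Pool.Agent.Y673.Kept.FEI.ExceptionalInvariants N c X).ncard : ℝ) := by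
        exact_mod_cast Set.ncard_le_ncard hsub hfin
    _ ≤ C * X ^ ε := hcard
    _ ≤ |C| * X ^ ε := mul_le_mul_of_nonneg_right (le_abs_self C) (by positivity)
    _ ≤ |C| * X ^ (ε + η) := by
        apply mul_le_mul_of_nonneg_left _ (abs_nonneg C)
        exact Real.rpow_le_rpow_of_exponent_le hX (by linarith)

/-- **Theorem.** For every `ε > 0` there are `N` and `c > 0` such that for all sequences `v ≥ 1` of exponent of
convergence at most `τ ≥ 0` and `0 ≤ θ < 1` there is a set `E` of Hausdorff dimension at most `(ε + τ) / (1 - θ)` such that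
for each `α > 0` outside `E` and all but finitely many `n`, for ALL rational numbers `A, B` with `4A³ + 27B² ≠ 0` such that
the height `H` of the invariant of `y² = x³ + Ax + B` satisfies `|H - α v_n| ≤ v_n ^ θ` and ALL primes `p` with
`N ≤ p ≤ exp (c √(log H))` the order of the image of the Galois group in `Aut(E[p])` is divisible by `p`. The sequences
`v_n = (n + 1) ^ a` and `v_n = b ^ n` have exponent of convergence at most `1 / a` and `0`. -/
theorem result :
    (∀ ε : ℝ, 0 < ε → ∃ (N : ℕ) (c : ℝ), 0 < c ∧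
      ∀ (v : ℕ → ℝ) (τ θ : ℝ), (∀ n, 1 ≤ v n) → 0 ≤ τ → ExpLe v τ → 0 ≤ θ → θ < 1 →
      ∃ E : Set ℝ, dimH E ≤ ENNReal.ofReal ((ε + τ) / (1 - θ)) ∧
        ∀ α : ℝ, 0 < α → α ∉ E → ∃ n₀ : ℕ, ∀ n : ℕ, n₀ ≤ n → ∀ A B : ℚ, 4 * A ^ 3 + 27 * B ^ 2 ≠ 0 →
          |(ht (invariant A B) : ℝ) - α * v n| ≤ (v n) ^ θ →
            ∀ p : ℕ, p.Prime → N ≤ p → (p : ℝ) ≤ Real.exp (c * Real.sqrt (Real.log (ht (invariant A B) : ℝ))) →
              OrderDivisible A B p) ∧
    (∀ a : ℝ, 0 < a → ExpLe (fun n : ℕ => ((n : ℝ) + 1) ^ a) (1 / a)) ∧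
    (∀ b : ℝ, 1 < b → ExpLe (fun n : ℕ => b ^ n) 0) := by
  refine ⟨fun ε hε => ?_, fun κ hκ => Pool.Agent.Y854.GM.expLe_pow κ hκ,
    fun b hb => Pool.Agent.Y854.GM.expLe_geom b hb⟩
  obtain ⟨N, c, hc, hcount⟩ := count ε hε
  refine ⟨N, c, hc, fun v τ θ hv hτ hE hθ hθ1 => ?_⟩
  obtain ⟨E, h2, h3⟩ := Pool.Agent.Y854.GM.windows (Exc N c) (fun j => (ht j : ℝ)) hv hτ hE
    (s := ε) hε.le hθ1 hcount
  refine ⟨E, h2, fun α hα hαE => ?_⟩
  obtain ⟨n₀, hn⟩ := h3 α hα hαE
  refine ⟨n₀, fun n hn1 A B hAB hw p hp hNp hpc => ?_⟩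
  by_contra hcon
  exact absurd (hn n hn1 (invariant A B) ⟨A, B, hAB, rfl, p, hp, hNp, hpc, hcon⟩) (not_lt.2 hw)

end Pool.Agent.Results.MP_cda23d_nt.InvariantWindows
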